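import Mathlib
import Pool.Agent.H.MP_a8f5d0_lc.B

namespace Pool.Agent.Results.MP_a8f5d0_lc.LogLower

open Pool.Agent.H.MP_a8f5d0_lc

theorem result : ∀ u m : ℕ, 18 ≤ u → 2 ^ u ≤ m →
    ¬ ∃ M : (Fin (m * (4 * u * 2)) → Finset (Fin m) → ℝ) →
        PMF (Fin (m * (4 * u * 2)) → Finset (Fin m)),
      Accurate (fun _ => 4 * u) (1 / 64) (1 / 8) M ∧ JDP (1 / 12) M := by
  rintro u m hu hm ⟨M, h1, h2⟩
  exact robust u m hu hm M h1 h2

end Pool.Agent.Results.MP_a8f5d0_lc.LogLower
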